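import Pool.Agent.Y41.EV.StmL
import Pool.Agent.Y995.HG.OccE
import Pool.Agent.Y884.ME.Fast

/-!
First moment of the number of the fast times (FM2).
-/

set_option autoImplicit false
set_option linter.unusedVariables false

namespace Pool.Agent.Y490.EV

open H974 Finset H342P H984P H984N TH992.T Y994.MC Pool.Agent.Y985.ME Pool.Agent.Y884.ME
open Pool.Agent.Y995.HG Pool.Agent.Y41.EV

theorem trunc_ev {p : Edg → ℝ} (hp : Ok p) {S : Finset Edg} {Z : Finset Edg → ℝ}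
    (hZ : ∀ F, 0 ≤ Z F) {A : Finset Edg → Prop} {M b : ℝ}
    (hM : Ex p S (fun F => Real.exp (Z F / 2)) ≤ M) (hb : 0 < b) (hPr : Pr p S A ≤ 9 * b ^ 2) :
    Ex p S (fun F => Z F * ind (A F)) ≤ (8 * M + 9) / 2 * b := by
  have h1 : Ex p S (fun F => Z F * ind (A F)) ≤
      Ex p S (fun F => (4 * b) * Real.exp (Z F / 2) + (b⁻¹ / 2) * ind (A F)) := by
    refine Ex_mono hp fun F _ => ?_
    have h2 : (Z F) ^ 2 ≤ 8 * Real.exp (Z F / 2) := by
      have := Real.quadratic_le_exp_of_nonneg (x := Z F / 2) (by have := hZ F; positivity)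
      have h0 := hZ F
      nlinarith
    by_cases hu : A F
    · rw [ind_of hu]
      have h3 : 2 * Z F ≤ b * (Z F) ^ 2 + b⁻¹ := by
        have h4 : 0 ≤ (b * Z F - 1) ^ 2 := sq_nonneg _
        have h5 : b * (2 * Z F) ≤ b * (b * (Z F) ^ 2 + b⁻¹) := by
          rw [mul_add, mul_inv_cancel₀ hb.ne']
          nlinarith
        exact le_of_mul_le_mul_left h5 hb
      nlinarith
    · rw [ind_not_of hu]
      have := Real.exp_pos (Z F / 2)
      simp only [mul_zero, add_zero]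
      positivity
  refine h1.trans ?_
  rw [Ex_add, Ex_mul_left, Ex_mul_left]
  have h2 : (4 * b) * Ex p S (fun F => Real.exp (Z F / 2)) ≤ (4 * b) * M :=
    mul_le_mul_of_nonneg_left hM (by positivity)
  have h3 : (b⁻¹ / 2) * Ex p S (fun F => ind (A F)) ≤ (b⁻¹ / 2) * (9 * b ^ 2) :=
    mul_le_mul_of_nonneg_left hPr (by positivity)
  have h4 : (b⁻¹ / 2) * (9 * b ^ 2) = 9 / 2 * b := by
    field_simp
  rw [h4] at h3
  linarith

theorem Nq_le_Zq {D : Dm} (hD : D.Ok) {F : Finset Edg} (hF : F ⊆ D.edges) {m : ℕ} (hm : 1 ≤ m)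
    (q : Vtx) : (Nq D (4 * m) q F : ℝ) ≤ Zq D m q F := by
  classical
  unfold Nq
  refine le_trans ?_ (Pool.Agent.Y337.ME.loc_le hD hF
    (v := (q.1 * (4 * m : ℤ) + 2 * m, q.2 * (4 * m : ℤ) + 2 * m)) (r := ((2 * m : ℕ) : ℝ))
    fun w hw => ?_)
  · have hsub : (Finset.range (D.len F + 1)).filter (fun t => blk (4 * m) (D.walk F t).1 = q) ⊆
        (Finset.range (D.len F + 1)).filter (fun t => ((sd (D.walk F t).1
          (q.1 * (4 * m : ℤ) + 2 * m, q.2 * (4 * m : ℤ) + 2 * m) : ℤ) : ℝ) ≤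
          ((2 * m : ℕ) : ℝ)) := by
      intro s hs
      rw [mem_filter] at hs
      rw [mem_filter]
      refine ⟨hs.1, ?_⟩
      have hb' := blk_ball hm hs.2
      have h5 : sd (D.walk F s).1
          (q.1 * (4 * m : ℤ) + 2 * m, q.2 * (4 * m : ℤ) + 2 * m) ≤ ((2 * m : ℕ) : ℤ) := by
        rw [det_sd_eq]
        push_cast
        omega
      exact_mod_cast h5
    have h6 := card_le_card hsub
    exact_mod_cast h6
  · obtain ⟨⟨c1, c2⟩, c3, c4⟩ := Pool.Agent.Y337.ME.sd_le_iff (m := 2 * m) le_rfl hw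
    rw [mem_Bq]
    simp only at c1 c2 c3 c4
    push_cast at c1 c2 c3 c4 ⊢
    refine ⟨⟨?_, ?_⟩, ?_, ?_⟩
    · linarith
    · linarith
    · linarith
    · linarith

theorem FastT_le {D : Dm} {F : Finset Edg} (m N : ℕ) :
    (FastT D F m N : ℝ) ≤ (Y995.HG.Heavy D F m (0 * (m : ℝ) ^ (7/4 : ℝ)) : ℝ) := by
  classical
  unfold FastT Y995.HG.Heavy
  refine Nat.cast_le.mpr (card_le_card fun t ht => ?_)
  rw [mem_filter] at ht ⊢
  refine ⟨ht.1, ?_⟩
  rw [zero_mul]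
  positivity

theorem fm2 : S_FM2 := by
  intro hFM1 hFM2P H hFM C hC hU
  classical
  obtain ⟨c0, s0, hc0, hs0, H⟩ := H ((1/36) ^ 98) (by positivity)
  obtain ⟨B, hB⟩ : ∃ B : ℝ, B = max (196 / c0) 1 := ⟨_, rfl⟩
  have hB1 : 1 ≤ B := by rw [hB]; exact le_max_right _ _
  have hB2 : 196 / c0 ≤ B := by rw [hB]; exact le_max_left _ _
  obtain ⟨A, hA⟩ : ∃ A : ℝ, A = B ^ (4/3 : ℝ) := ⟨_, rfl⟩
  have hA1 : 1 ≤ A := by rw [hA]; exact Real.one_le_rpow hB1 (by norm_num)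
  have hA0 : 0 < A := by linarith
  have hA34 : A ^ (3/4 : ℝ) = B := by
    rw [hA, ← Real.rpow_mul (by linarith)]
    norm_num
  have hlog : 0 < Real.log 2 := Real.log_pos (by norm_num)
  obtain ⟨l0, hl0, hheavy⟩ := heavy_exp hC hU
  obtain ⟨M0, hM01, hM0⟩ := Y994.MC.expY (a := 1/4)
    (C0 := 4 * (C + 1) * (1 + 8 * (1 + 1 / (1 - 1/4))))
    (by norm_num) (by norm_num) 4 (by positivity)
  obtain ⟨a, ha⟩ : ∃ a : ℝ, a = Real.log 2 / (8 * A) := ⟨_, rfl⟩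
  have ha0 : 0 < a := by rw [ha]; positivity
  refine ⟨a, ha0, fun κ hκ => ?_⟩
  obtain ⟨K1, hK1⟩ : ∃ K1 : ℝ, K1 = max (2 * A * s0 / κ) (4 * A) := ⟨_, rfl⟩
  have hK1a : 2 * A * s0 / κ ≤ K1 := by rw [hK1]; exact le_max_left _ _
  have hK1b : 4 * A ≤ K1 := by rw [hK1]; exact le_max_right _ _
  obtain ⟨C2, hC2, hfm⟩ := hFM κ hκ
  obtain ⟨Ch, hCh, hhv⟩ := hheavy κ hκ
  obtain ⟨Cb, hCb⟩ : ∃ Cb : ℝ, Cb = (10 / (A * a) + 2) / 3 := ⟨_, rfl⟩
  have hCb0 : 0 < Cb := by rw [hCb]; positivity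
  have hE0 : 0 < Real.exp (a * K1) := Real.exp_pos _
  have hK0 : 0 < K1 := by linarith
  obtain ⟨Cm, hCm⟩ : ∃ Cm : ℝ, Cm = (8 * M0 + 9) / 2 * C2 * 4 * Cb := ⟨_, rfl⟩
  have hCm0 : 0 < Cm := by rw [hCm]; positivity
  obtain ⟨C1, hC1⟩ : ∃ C1 : ℝ, C1 = Ch * Real.exp (a * K1) + s0 + 1 + Cm := ⟨_, rfl⟩
  have hChE : 0 < Ch * Real.exp (a * K1) := by positivity
  have hC11 : 1 ≤ C1 := by rw [hC1]; linarith
  have hCs : s0 ≤ C1 := by rw [hC1]; linarith
  have hCE : Ch * Real.exp (a * K1) ≤ C1 := by rw [hC1]; linarith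
  have hCCm : Cm ≤ C1 := by rw [hC1]; linarith
  refine ⟨C1, by linarith, ?_⟩
  intro D n x m N hD hx hx1 hCy hyn hN
  obtain ⟨y, hy⟩ : ∃ y : ℝ, y = (m : ℝ) := ⟨_, rfl⟩
  obtain ⟨u, hu⟩ : ∃ u : ℝ, u = x ^ (4/3 : ℝ) := ⟨_, rfl⟩
  have hu0 : 0 < u := by rw [hu]; positivity
  have hu1 : u ≤ 1 := by rw [hu]; exact Real.rpow_le_one hx.le hx1 (by norm_num)
  have hux : u ^ (3/4 : ℝ) = x := by
    rw [hu, ← Real.rpow_mul hx.le]
    norm_num
  obtain ⟨z, hz⟩ : ∃ z : ℝ, z = x ^ (-(4/3) : ℝ) := ⟨_, rfl⟩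
  have hzu : z = u⁻¹ := by rw [hz, hu, Real.rpow_neg hx.le]
  have hzu1 : z * u = 1 := by rw [hzu]; exact inv_mul_cancel₀ hu0.ne'
  have hz0 : 0 < z := by rw [hzu]; positivity
  have hz1 : 1 ≤ z := by rw [hzu]; exact one_le_inv_iff₀.mpr ⟨hu0, hu1⟩
  rw [← hz] at hCy ⊢
  rw [← hy] at hCy hyn hN
  have hy1 : 1 ≤ y := by nlinarith
  have hy0 : 0 < y := by linarith
  have hn0 : 0 < n := by linarith
  have hm : 1 ≤ m := by
    rw [hy] at hy1
    exact_mod_cast hy1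
  rcases lt_or_ge z K1 with hzs | hzl
  · -- trivial case
    have h1 : E D.edges (fun F => (FastT D F m N : ℝ)) ≤
        E D.edges (fun F => (Y995.HG.Heavy D F m (0 * (m : ℝ) ^ (7/4 : ℝ)) : ℝ)) :=
      Ex_mono two_ok fun F _ => FastT_le m N
    refine h1.trans ((hhv D n m 0 hD hm (by rw [← hy]; exact hyn) le_rfl).trans ?_)
    rw [zero_div, zero_pow (by norm_num), neg_zero, Real.exp_zero, mul_one]
    have h2 : 1 ≤ Real.exp (a * K1) * Real.exp (-(a * z)) := by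
      rw [← Real.exp_add]
      apply Real.one_le_exp
      nlinarith
    have hp : 0 < n ^ (7/4 : ℝ) := by positivity
    calc Ch * n ^ (7/4 : ℝ) = Ch * n ^ (7/4 : ℝ) * 1 := by ring
      _ ≤ Ch * n ^ (7/4 : ℝ) * (Real.exp (a * K1) * Real.exp (-(a * z))) :=
          mul_le_mul_of_nonneg_left h2 (by positivity)
      _ = Ch * Real.exp (a * K1) * n ^ (7/4 : ℝ) * Real.exp (-(a * z)) := by ring
      _ ≤ C1 * n ^ (7/4 : ℝ) * Real.exp (-(a * z)) := by gcongr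
  -- main case
  obtain ⟨v, hv⟩ : ∃ v : ℝ, v = u * y := ⟨_, rfl⟩
  have hvC : C1 ≤ v := by
    have h1 := mul_le_mul_of_nonneg_right hCy hu0.le
    have h2 : C1 * z * u = C1 := by rw [mul_assoc, hzu1, mul_one]
    rw [hv]
    linarith
  have hv1 : 1 ≤ v := by linarith
  obtain ⟨T, hT⟩ : ∃ T : ℝ, T = A * v := ⟨_, rfl⟩
  have hTC : C1 ≤ T := by rw [hT]; nlinarith
  have hT1 : 1 ≤ T := by linarith
  obtain ⟨W, hW⟩ : ∃ W : ℤ, W = ⌈T⌉ := ⟨_, rfl⟩
  have hTW : T ≤ W := by rw [hW]; exact Int.le_ceil T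
  have hWT : (W : ℝ) ≤ 2 * T := by
    have := Int.ceil_lt_add_one T
    rw [← hW] at this
    linarith
  have hW1r : (1 : ℝ) ≤ W := by linarith
  have hW1 : 1 ≤ W := by exact_mod_cast hW1r
  have hW0 : (0 : ℝ) < W := by linarith
  obtain ⟨k, hk⟩ : ∃ k : ℕ, k = ⌊y / W⌋₊ := ⟨_, rfl⟩
  have hk1 : (k : ℝ) ≤ y / W := by rw [hk]; exact Nat.floor_le (by positivity)
  have hk2 : y / W < k + 1 := by rw [hk]; exact Nat.lt_floor_add_one _
  have hkW : (k : ℝ) * W ≤ y := by rwa [le_div_iff₀ hW0] at hk1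
  have hyW : z / (2 * A) ≤ y / W := by
    have h1 : z / (2 * A) = y / (2 * T) := by
      rw [hT, hv, hzu]
      field_simp
    rw [h1]
    exact div_le_div_of_nonneg_left hy0.le hW0 hWT
  have hyW' : y / W ≤ z / A := by
    have h1 : z / A = y / T := by
      rw [hT, hv, hzu]
      field_simp
    rw [h1]
    exact div_le_div_of_nonneg_left hy0.le (by linarith) hTW
  have hk2' : 2 ≤ k := by
    rw [hk]
    apply Nat.le_floor
    push_cast
    refine le_trans ?_ hyW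
    rw [le_div_iff₀ (by positivity)]
    linarith
  have hsW : s0 * W ≤ κ * n := by
    have h1 : 2 * A * s0 ≤ z * κ := by
      have := hK1a.trans hzl
      rwa [div_le_iff₀ hκ] at this
    have h2 : 2 * A * s0 * u ≤ κ := by
      have := mul_le_mul_of_nonneg_right h1 hu0.le
      have h3 : z * κ * u = κ := by
        rw [mul_right_comm, hzu1, one_mul]
      linarith
    calc s0 * W ≤ s0 * (2 * T) := mul_le_mul_of_nonneg_left hWT hs0.le
      _ = 2 * A * s0 * u * y := by rw [hT, hv]; ring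
      _ ≤ κ * y := mul_le_mul_of_nonneg_right h2 hy0.le
      _ ≤ κ * n := mul_le_mul_of_nonneg_left (by linarith) hκ.le
  obtain ⟨Bd, hloc, hbad, hgood⟩ := H D W hD.ok (by linarith) (hsW.trans hD.l_ge)
    (hsW.trans hD.r_ge) (hsW.trans hD.h_ge)
  obtain ⟨M, hM⟩ : ∃ M : ℕ, M = ⌈c0 * (W : ℝ) ^ (7/4 : ℝ)⌉₊ := ⟨_, rfl⟩
  have hMge : c0 * (W : ℝ) ^ (7/4 : ℝ) ≤ M := by rw [hM]; exact Nat.le_ceil _
  have hv34 : v ^ (3/4 : ℝ) * y = x * y ^ (7/4 : ℝ) := by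
    rw [hv, Real.mul_rpow hu0.le hy0.le, hux, show (7/4 : ℝ) = 3/4 + 1 by norm_num,
      Real.rpow_add hy0, Real.rpow_one]
    ring
  have hxy1 : 1 ≤ x * y ^ (7/4 : ℝ) := by
    rw [← hv34]
    have h1 : 1 ≤ v ^ (3/4 : ℝ) := Real.one_le_rpow hv1 (by norm_num)
    nlinarith
  have hkM : 196 * (x * y ^ (7/4 : ℝ)) < (k + 1) * M := by
    have h1 : (W : ℝ) ^ (7/4 : ℝ) = W * (W : ℝ) ^ (3/4 : ℝ) := by
      rw [show (7/4 : ℝ) = 1 + 3/4 by norm_num, Real.rpow_add hW0, Real.rpow_one]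
    have h2 : B * v ^ (3/4 : ℝ) ≤ (W : ℝ) ^ (3/4 : ℝ) := by
      rw [← hA34, ← Real.mul_rpow hA0.le (by linarith), ← hT]
      exact Real.rpow_le_rpow (by linarith) hTW (by norm_num)
    have h3 : 0 < v ^ (3/4 : ℝ) := by positivity
    have h4 : 196 ≤ c0 * B := by
      rw [div_le_iff₀ hc0] at hB2
      linarith
    have hMp : (0 : ℝ) < M := lt_of_lt_of_le (by positivity) hMge
    calc 196 * (x * y ^ (7/4 : ℝ)) = 196 * (v ^ (3/4 : ℝ) * y) := by rw [hv34]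
      _ ≤ c0 * B * (v ^ (3/4 : ℝ) * y) := mul_le_mul_of_nonneg_right h4 (by positivity)
      _ = c0 * y * (B * v ^ (3/4 : ℝ)) := by ring
      _ ≤ c0 * y * (W : ℝ) ^ (3/4 : ℝ) := mul_le_mul_of_nonneg_left h2 (by positivity)
      _ = y / W * (c0 * (W : ℝ) ^ (7/4 : ℝ)) := by
          rw [h1]
          field_simp
      _ ≤ y / W * M := mul_le_mul_of_nonneg_left hMge (by positivity)
      _ < (k + 1) * M := mul_lt_mul_of_pos_right hk2 hMp
  have hkM' : 98 * (N + 1) < (k + 1) * M := by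
    have h1 : ((98 * (N + 1) : ℕ) : ℝ) < (((k + 1) * M : ℕ) : ℝ) := by
      push_cast
      linarith
    exact_mod_cast h1
  have hkW' : (k : ℤ) * W ≤ m := by
    have h1 : (((k : ℤ) * W : ℤ) : ℝ) ≤ ((m : ℤ) : ℝ) := by
      push_cast
      rw [← hy]
      exact hkW
    exact_mod_cast h1
  have hdet : ∀ F ⊆ D.edges, (FastT D F m N : ℝ) ≤ ∑ q ∈ Bks D (4 * m),
      ind (Tch D (4 * m) q F) * (Zq D m q F * ind (NearBad D W k m Bd q F)) := by
    intro F hF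
    refine (hFM1 D W m N k M F Bd hD.ok hW1 hk2' hkW' hF hkM' (fun q hq k l h1 h2 h3 h4 => ?_)).trans
      (sum_le_sum fun q _ => ?_)
    · have := hgood F hF q hq k l h1 h2 h3 h4
      rw [hM]
      exact Nat.ceil_le.mpr this
    · exact mul_le_mul_of_nonneg_left (mul_le_mul_of_nonneg_right (Nq_le_Zq hD.ok hF hm q)
        (ind_nonneg _)) (ind_nonneg _)
  -- the constant `b`
  obtain ⟨b, hb⟩ : ∃ b : ℝ, b = (10 * (y / W) + 2) / 3 * Real.exp (-(2 * (a * z))) := ⟨_, rfl⟩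
  have hb0 : 0 < b := by
    rw [hb]
    have := Real.exp_pos (-(2 * (a * z)))
    have : 0 < y / W := by positivity
    positivity
  have hhalf : ((1/2 : ℝ)) ^ (k + 1) ≤ Real.exp (-(4 * (a * z))) := by
    have h3 : ((1/2 : ℝ)) ^ (k + 1) = Real.exp (-(((k + 1 : ℕ) : ℝ) * Real.log 2)) := by
      rw [Real.exp_neg, Real.exp_nat_mul, Real.exp_log (by norm_num), one_div, inv_pow]
    rw [h3]
    apply Real.exp_le_exp.mpr
    push_cast
    have h4 : 4 * (a * z) = z / (2 * A) * Real.log 2 := by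
      rw [ha]
      field_simp
      ring
    have h5 := mul_le_mul_of_nonneg_right (hyW.trans hk2.le) hlog.le
    linarith
  have hb9 : (10 * y / W + 2) ^ 2 * (1/2) ^ (k + 1) ≤ 9 * b ^ 2 := by
    have h1 : 9 * b ^ 2 = (10 * y / W + 2) ^ 2 * Real.exp (-(4 * (a * z))) := by
      rw [hb, mul_pow, ← Real.exp_nat_mul, div_pow, mul_div_assoc 10 y]
      rw [show ((2 : ℕ) : ℝ) * -(2 * (a * z)) = -(4 * (a * z)) by push_cast; ring]
      ring
    rw [h1]
    exact mul_le_mul_of_nonneg_left hhalf (by positivity)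
  have hble : b ≤ Cb * Real.exp (-(a * z)) := by
    have h1 : 10 * (y / W) + 2 ≤ 10 / (A * a) * (a * z) + 2 := by
      have : 10 / (A * a) * (a * z) = 10 * (z / A) := by field_simp
      rw [this]
      linarith
    have h2 : a * z ≤ Real.exp (a * z) := by
      have := Real.add_one_le_exp (a * z)
      linarith
    have h3 : 1 ≤ Real.exp (a * z) := Real.one_le_exp (by positivity)
    have h4 : (10 * (y / W) + 2) / 3 ≤ Cb * Real.exp (a * z) := by
      rw [hCb]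
      have h5 : 10 / (A * a) * (a * z) ≤ 10 / (A * a) * Real.exp (a * z) :=
        mul_le_mul_of_nonneg_left h2 (by positivity)
      have h6 : (10 / (A * a) + 2) / 3 * Real.exp (a * z) =
          (10 / (A * a) * Real.exp (a * z) + 2 * Real.exp (a * z)) / 3 := by ring
      rw [h6]
      linarith
    rw [hb]
    calc (10 * (y / W) + 2) / 3 * Real.exp (-(2 * (a * z)))
        ≤ Cb * Real.exp (a * z) * Real.exp (-(2 * (a * z))) :=
          mul_le_mul_of_nonneg_right h4 (Real.exp_pos _).le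
      _ = Cb * Real.exp (-(a * z)) := by
          rw [mul_assoc, ← Real.exp_add]
          ring_nf
  have hm0 : (0 : ℝ) < m := by exact_mod_cast hm
  have hs0' : (0 : ℝ) < ((6 * m : ℕ) : ℝ) := by positivity
  obtain ⟨S, hS⟩ : ∃ S : ℝ, S = ((6 * m : ℕ) : ℝ) ^ (7/4 : ℝ) := ⟨_, rfl⟩
  have hS0 : 0 < S := by rw [hS]; positivity
  have hP := fun q => hFM2P D W m k Bd q hD.ok hW1 hk2' hkW' hloc hbad
  have hY : ∀ q, E D.edges (fun F => Zq D m q F * ind (NearBad D W k m Bd q F)) ≤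
      S * ((8 * M0 + 9) / 2 * b) := by
    intro q
    have hfam := xs_fam hC hU D
    have e2 : (2 - 1/4 : ℝ) = 7/4 := by norm_num
    have hZ : ∀ F, Zq D m q F = S * Yb (1/4) (xs D) (6 * m) (q.1 * (4 * m : ℤ) - m)
        (q.2 * (4 * m : ℤ) - m) F := by
      intro F
      unfold Yb Zq
      rw [e2, ← hS]
      field_simp
    have h1 := trunc_ev two_ok (S := D.edges) (Z := fun F => Yb (1/4) (xs D) (6 * m)
      (q.1 * (4 * m : ℤ) - m) (q.2 * (4 * m : ℤ) - m) F) (fun F => Yb_nonneg hfam _ _ _ _)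
      (A := NearBad D W k m Bd q) (M := M0) (b := b)
      (hM0 _ _ _ hfam (6 * m) _ _ (by omega)) hb0 (by
        refine (hP q).1.trans ?_
        rw [← hy]
        exact hb9)
    have h2 : E D.edges (fun F => Zq D m q F * ind (NearBad D W k m Bd q F)) =
        E D.edges (fun F => S * (Yb (1/4) (xs D) (6 * m)
      (q.1 * (4 * m : ℤ) - m) (q.2 * (4 * m : ℤ) - m) F * ind (NearBad D W k m Bd q F))) := by
      refine Ex_congr fun F _ => ?_
      rw [hZ F, mul_assoc]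
    rw [h2]
    show Ex _ _ _ ≤ _
    rw [Ex_mul_left]
    exact mul_le_mul_of_nonneg_left h1 hS0.le
  have hW4 : (1 : ℤ) ≤ 4 * m := by omega
  have h1 : E D.edges (fun F => (FastT D F m N : ℝ)) ≤
      E D.edges (fun F => ∑ q ∈ Bks D (4 * m),
        ind (Tch D (4 * m) q F) * (Zq D m q F * ind (NearBad D W k m Bd q F))) :=
    Ex_mono two_ok fun F hF => hdet F hF
  refine h1.trans ?_
  show Ex _ _ _ ≤ _
  rw [Ex_sum]
  have h2 : ∀ q ∈ Bks D (4 * m), Ex (fun _ : Edg => (1/2:ℝ)) D.edges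
      (fun F => ind (Tch D (4 * m) q F) * (Zq D m q F * ind (NearBad D W k m Bd q F))) ≤
      P D.edges (Tch D (4 * m) q) * (S * ((8 * M0 + 9) / 2 * b)) := by
    intro q _
    have h3 := tch_mul hD.ok hW4 (q := q)
      (Y := fun F => Zq D m q F * ind (NearBad D W k m Bd q F))
      (fun F hF => by
        rw [Zq_local hC hU hm hF]
        congr 1
        exact ind_congr ((hP q).2 F hF))
    refine (le_of_eq h3).trans (mul_le_mul_of_nonneg_left (hY q) (Pr_nonneg two_ok _ _))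
  refine (sum_le_sum h2).trans ?_
  rw [← sum_mul]
  have h4 := hfm D n n (4 * m : ℤ) hD hW4 (by push_cast; rw [← hy]; linarith) le_rfl
  have h5 : (Bks D (4 * m)).filter
      (fun q => ((D.bd (q.1 * (4 * m : ℤ), q.2 * (4 * m : ℤ)) : ℤ) : ℝ) ≤ n) = Bks D (4 * m) := by
    refine filter_true_of_mem fun q _ => ?_
    have h6 : 2 * D.bd (q.1 * (4 * m : ℤ), q.2 * (4 * m : ℤ)) ≤ D.r - D.l := by
      unfold Dm.bd
      simp only
      omega
    have h7 : ((2 * D.bd (q.1 * (4 * m : ℤ), q.2 * (4 * m : ℤ)) : ℤ) : ℝ) ≤ n :=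
      (by exact_mod_cast h6 : ((2 * D.bd (q.1 * (4 * m : ℤ), q.2 * (4 * m : ℤ)) : ℤ) : ℝ) ≤
        ((D.r - D.l : ℤ) : ℝ)).trans hD.w_le
    push_cast at h7
    linarith
  rw [h5] at h4
  have h6 : (n / n) ^ (3/4 : ℝ) = 1 := by
    rw [div_self hn0.ne', Real.one_rpow]
  rw [h6, mul_one] at h4
  have h7 : S * (n / ((4 * m : ℤ) : ℝ)) ^ (7/4 : ℝ) ≤ 4 * n ^ (7/4 : ℝ) := by
    rw [hS, ← Real.mul_rpow (by positivity) (by positivity)]
    have e : ((6 * m : ℕ) : ℝ) * (n / ((4 * m : ℤ) : ℝ)) = (3/2) * n := by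
      push_cast
      field_simp
      norm_num
    rw [e, Real.mul_rpow (by norm_num) hn0.le]
    refine mul_le_mul_of_nonneg_right ?_ (by positivity)
    calc (3/2 : ℝ) ^ (7/4 : ℝ) ≤ (3/2) ^ (2 : ℝ) :=
          Real.rpow_le_rpow_of_exponent_le (by norm_num) (by norm_num)
      _ ≤ 4 := by norm_num
  have hSP : (∑ q ∈ Bks D (4 * m), P D.edges (Tch D (4 * m) q)) * (S * ((8 * M0 + 9) / 2 * b)) ≤
      (C2 * (n / ((4 * m : ℤ) : ℝ)) ^ (7/4 : ℝ)) * (S * ((8 * M0 + 9) / 2 * b)) :=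
    mul_le_mul_of_nonneg_right h4 (by positivity)
  refine hSP.trans ?_
  calc (C2 * (n / ((4 * m : ℤ) : ℝ)) ^ (7/4 : ℝ)) * (S * ((8 * M0 + 9) / 2 * b)) =
        ((8 * M0 + 9) / 2 * C2 * b) * (S * (n / ((4 * m : ℤ) : ℝ)) ^ (7/4 : ℝ)) := by ring
    _ ≤ ((8 * M0 + 9) / 2 * C2 * b) * (4 * n ^ (7/4 : ℝ)) :=
        mul_le_mul_of_nonneg_left h7 (by positivity)
    _ = ((8 * M0 + 9) / 2 * C2 * (4 * n ^ (7/4 : ℝ))) * b := by ring
    _ ≤ ((8 * M0 + 9) / 2 * C2 * (4 * n ^ (7/4 : ℝ))) * (Cb * Real.exp (-(a * z))) :=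
        mul_le_mul_of_nonneg_left hble (by positivity)
    _ = Cm * n ^ (7/4 : ℝ) * Real.exp (-(a * z)) := by rw [hCm]; ring
    _ ≤ C1 * n ^ (7/4 : ℝ) * Real.exp (-(a * z)) := by gcongr

end Pool.Agent.Y490.EV
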