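import Pool.Agent.Y41.EV.StmL
import Pool.Agent.Y884.ME.Fast

/-!
Probability and locality of `NearBad` (FM2P).
-/

set_option autoImplicit false

namespace Pool.Agent.Y490.EV

open H974 Finset H342P H984P H984N Pool.Agent.Y985.ME Pool.Agent.Y884.ME
open Pool.Agent.Y41.EV

/-- The probability of a fast path from the block `b`. -/
theorem chain_pr_one {D : Dm} {W : ℤ} (hW : 1 ≤ W) {Bd : Vtx → Finset Edg → Prop}
    (hloc : ∀ q F, Bd q F ↔ Bd q (F ∩ Lam D W q))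
    (hbad : ∀ q ∈ Bks D W, P D.edges (Bd q) ≤ (1/36) ^ 98) {k : ℕ} (b : Vtx) :
    P D.edges (fun F => ∃ Q ∈ AS k b, Q.card = k + 1 ∧ ∃ B ∈ Q.powerset,
      (B ⊆ Bks D W ∧ (∀ q ∈ B, ∀ r ∈ B, cls q = cls r) ∧ k + 1 ≤ 98 * B.card) ∧
      ∀ q ∈ B, Bd q F) ≤ (1/2) ^ (k + 1) := by
  classical
  have hzero : P D.edges (fun _ => False) = 0 := by
    unfold P Pr
    rw [Ex_congr (g := fun _ => 0) (fun F _ => ind_not_of (fun h => h)), Ex_const]
  have hQ : ∀ Q ∈ AS k b, P D.edges (fun F => Q.card = k + 1 ∧ ∃ B ∈ Q.powerset,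
      (B ⊆ Bks D W ∧ (∀ q ∈ B, ∀ r ∈ B, cls q = cls r) ∧ k + 1 ≤ 98 * B.card) ∧
      ∀ q ∈ B, Bd q F) ≤ 2 ^ (k + 1) * (1/36) ^ (k + 1) := by
    intro Q hQ
    by_cases hc : Q.card = k + 1
    · refine (Pr_mono half_ok (B := fun F => ∃ B ∈ Q.powerset,
        (B ⊆ Bks D W ∧ (∀ q ∈ B, ∀ r ∈ B, cls q = cls r) ∧ k + 1 ≤ 98 * B.card) ∧
        ∀ q ∈ B, Bd q F) fun F _ h => h.2).trans ?_
      refine (Pr_exists_le half_ok _ _ _).trans ?_
      have hone : ∀ B ∈ Q.powerset, P D.edges (fun F =>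
          (B ⊆ Bks D W ∧ (∀ q ∈ B, ∀ r ∈ B, cls q = cls r) ∧ k + 1 ≤ 98 * B.card) ∧
          ∀ q ∈ B, Bd q F) ≤ (1/36) ^ (k + 1) := by
        intro B hB
        by_cases hcl : B ⊆ Bks D W ∧ (∀ q ∈ B, ∀ r ∈ B, cls q = cls r) ∧ k + 1 ≤ 98 * B.card
        · refine (Pr_mono half_ok (B := fun F => ∀ q ∈ B, Bd q F)
            fun F _ h => h.2).trans ?_
          refine (all_bad hW hloc hcl.2.1 fun q hq => hbad q (hcl.1 hq)).trans ?_
          rw [← pow_mul]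
          exact pow_le_pow_of_le_one (by norm_num) (by norm_num) hcl.2.2
        · refine (Pr_mono half_ok (B := fun _ => False) fun F _ h => hcl h.1).trans ?_
          rw [show Pr (fun _ => (1/2:ℝ)) D.edges (fun _ => False) = 0 from hzero]
          positivity
      refine (sum_le_card_nsmul _ _ _ hone).trans ?_
      rw [card_powerset, hc, nsmul_eq_mul]
      push_cast
      exact le_rfl
    · refine (Pr_mono half_ok (B := fun _ => False) fun F _ h => hc h.1).trans ?_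
      rw [show Pr (fun _ => (1/2:ℝ)) D.edges (fun _ => False) = 0 from hzero]
      positivity
  refine (Pr_exists_le half_ok _ _ _).trans ?_
  refine (sum_le_card_nsmul _ _ _ hQ).trans ?_
  rw [nsmul_eq_mul]
  have h1 : ((AS k b).card : ℝ) ≤ 9 ^ (k + 1) := by
    have := AS_card k b
    have h2 : ((AS k b).card : ℝ) ≤ ((9 ^ k : ℕ) : ℝ) := by exact_mod_cast this
    push_cast at h2
    refine h2.trans ?_
    exact pow_le_pow_right₀ (by norm_num) (by omega)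
  calc ((AS k b).card : ℝ) * (2 ^ (k + 1) * (1/36) ^ (k + 1))
      ≤ 9 ^ (k + 1) * (2 ^ (k + 1) * (1/36) ^ (k + 1)) := by gcongr
    _ = (1/2) ^ (k + 1) := by
        rw [← mul_pow, ← mul_pow]
        norm_num

/-- the number of the integers `x` with `A - 3 m ≤ x W ≤ A + 7 m` -/
theorem card_mult {W : ℤ} (hW : 1 ≤ W) (A : ℤ) (m : ℕ) :
    ((Finset.Icc (-((3 * m - A) / W)) ((A + 7 * m) / W)).card : ℝ) ≤ 10 * (m : ℝ) / W + 2 := by
  have hW0 : (0 : ℝ) < W := by exact_mod_cast (show (0:ℤ) < W by omega)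
  rw [Int.card_Icc]
  have h1 : ((((A + 7 * m) / W + 1 - -((3 * m - A) / W)).toNat : ℕ) : ℝ) ≤
      max (((A + 7 * m) / W + 1 - -((3 * m - A) / W) : ℤ) : ℝ) 0 := by
    have : ((((A + 7 * m) / W + 1 - -((3 * m - A) / W)).toNat : ℕ) : ℤ) =
        max ((A + 7 * m) / W + 1 - -((3 * m - A) / W)) 0 := Int.toNat_eq_max _
    have h2 : ((((A + 7 * m) / W + 1 - -((3 * m - A) / W)).toNat : ℕ) : ℝ) =
        ((max ((A + 7 * m) / W + 1 - -((3 * m - A) / W)) 0 : ℤ) : ℝ) := by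
      rw [← this]
      push_cast
      rfl
    rw [h2]
    push_cast
    exact le_rfl
  refine h1.trans (max_le ?_ (by positivity))
  have a1 : W * ((A + 7 * m) / W) ≤ A + 7 * m := Int.mul_ediv_self_le (by omega)
  have a2 : W * ((3 * m - A) / W) ≤ 3 * m - A := Int.mul_ediv_self_le (by omega)
  have a1' : (W : ℝ) * (((A + 7 * m) / W : ℤ) : ℝ) ≤ A + 7 * m := by exact_mod_cast a1
  have a2' : (W : ℝ) * (((3 * m - A) / W : ℤ) : ℝ) ≤ 3 * m - A := by exact_mod_cast a2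
  have h3 : ((((A + 7 * m) / W : ℤ) : ℝ) + (((3 * m - A) / W : ℤ) : ℝ)) ≤ 10 * (m : ℝ) / W := by
    rw [le_div_iff₀ hW0]
    nlinarith
  push_cast
  linarith

theorem fm2p : S_FM2P := by
  classical
  intro D W m k Bd q hD hW hk hkW hloc hbad
  have hWm : 2 * W ≤ m := by
    have h1 : (2 : ℤ) * W ≤ k * W := mul_le_mul_of_nonneg_right (by exact_mod_cast hk) (by omega)
    omega
  constructor
  · obtain ⟨Tb, hTb⟩ : ∃ Tb : Finset Vtx, Tb = (Bks D W).filter fun b =>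
        (q.1 * (4 * m : ℤ) - 3 * m ≤ b.1 * W ∧ b.1 * W ≤ q.1 * (4 * m : ℤ) + 7 * m ∧
        q.2 * (4 * m : ℤ) - 3 * m ≤ b.2 * W ∧ b.2 * W ≤ q.2 * (4 * m : ℤ) + 7 * m) := ⟨_, rfl⟩
    have hcard : (Tb.card : ℝ) ≤ (10 * (m : ℝ) / W + 2) ^ 2 := by
      have hsub : Tb ⊆ (Finset.Icc (-((3 * m - q.1 * (4 * m : ℤ)) / W))
          ((q.1 * (4 * m : ℤ) + 7 * m) / W)) ×ˢ
          (Finset.Icc (-((3 * m - q.2 * (4 * m : ℤ)) / W))
          ((q.2 * (4 * m : ℤ) + 7 * m) / W)) := by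
        intro b hb
        rw [hTb, mem_filter] at hb
        obtain ⟨-, c1, c2, c3, c4⟩ := hb
        have key : ∀ x A : ℤ, A - 3 * m ≤ x * W → x * W ≤ A + 7 * m →
            -((3 * m - A) / W) ≤ x ∧ x ≤ (A + 7 * m) / W := by
          intro x A h1 h2
          constructor
          · have h3 : -x ≤ (3 * m - A) / W := by
              rw [Int.le_ediv_iff_mul_le (by omega)]
              linarith
            omega
          · rw [Int.le_ediv_iff_mul_le (by omega)]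
            exact h2
        rw [mem_product, mem_Icc, mem_Icc]
        exact ⟨key _ _ c1 c2, key _ _ c3 c4⟩
      have h1 := card_le_card hsub
      rw [card_product] at h1
      have h2 : (Tb.card : ℝ) ≤ ((Finset.Icc (-((3 * m - q.1 * (4 * m : ℤ)) / W))
          ((q.1 * (4 * m : ℤ) + 7 * m) / W)).card : ℝ) *
          ((Finset.Icc (-((3 * m - q.2 * (4 * m : ℤ)) / W))
          ((q.2 * (4 * m : ℤ) + 7 * m) / W)).card : ℝ) := by exact_mod_cast h1
      refine h2.trans ?_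
      rw [sq]
      exact mul_le_mul (card_mult hW _ _) (card_mult hW _ _) (by positivity)
        (le_trans (by positivity) (card_mult hW (q.1 * (4 * m : ℤ)) m))
    refine (Pr_mono half_ok (B := fun F => ∃ b ∈ Tb, ∃ Q ∈ AS k b, Q.card = k + 1 ∧
      ∃ B ∈ Q.powerset, (B ⊆ Bks D W ∧ (∀ q ∈ B, ∀ r ∈ B, cls q = cls r) ∧
      k + 1 ≤ 98 * B.card) ∧ ∀ q ∈ B, Bd q F) fun F _ h => ?_).trans ?_
    · obtain ⟨b, hb, hc, h⟩ := h
      refine ⟨b, ?_, h⟩
      rw [hTb, mem_filter]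
      exact ⟨hb, hc⟩
    refine (Pr_exists_le half_ok _ _ _).trans ?_
    refine (sum_le_card_nsmul _ _ _ fun b _ => chain_pr_one hW hloc hbad b).trans ?_
    rw [nsmul_eq_mul]
    gcongr
  · intro F hF
    have hsub : ∀ b : Vtx, (q.1 * (4 * m : ℤ) - 3 * m ≤ b.1 * W ∧
        b.1 * W ≤ q.1 * (4 * m : ℤ) + 7 * m ∧
        q.2 * (4 * m : ℤ) - 3 * m ≤ b.2 * W ∧ b.2 * W ≤ q.2 * (4 * m : ℤ) + 7 * m) →
        ∀ Q ∈ AS k b, ∀ q' ∈ Q, Lam D W q' ⊆ Lam D (4 * m) q := by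
      rintro b ⟨c1, c2, c3, c4⟩ Q hQ q' hq'
      have h1 := AS_near k b Q hQ q' hq'
      rw [det_sd_eq] at h1
      have key : ∀ x y : ℤ, x - y ≤ k → x * W ≤ y * W + m := by
        intro x y hxy
        have h2 : (x - y) * W ≤ k * W := mul_le_mul_of_nonneg_right hxy (by omega)
        have h3 : (x - y) * W = x * W - y * W := by ring
        linarith
      have d1 := key b.1 q'.1 (by omega)
      have d2 := key q'.1 b.1 (by omega)
      have d3 := key b.2 q'.2 (by omega)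
      have d4 := key q'.2 b.2 (by omega)
      unfold Y985.ME.Lam
      have hm0 : (0 : ℤ) ≤ m := by positivity
      refine RE_subset (max_le_max le_rfl ?_) (min_le_min le_rfl ?_) (max_le_max le_rfl ?_)
        (min_le_min le_rfl ?_)
      · linarith
      · linarith
      · linarith
      · linarith
    have hiff : ∀ b : Vtx, (q.1 * (4 * m : ℤ) - 3 * m ≤ b.1 * W ∧
        b.1 * W ≤ q.1 * (4 * m : ℤ) + 7 * m ∧
        q.2 * (4 * m : ℤ) - 3 * m ≤ b.2 * W ∧ b.2 * W ≤ q.2 * (4 * m : ℤ) + 7 * m) →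
        ∀ Q ∈ AS k b, ∀ q' ∈ Q, (Bd q' F ↔ Bd q' (F ∩ Lam D (4 * m) q)) := by
      intro b hb Q hQ q' hq'
      rw [hloc q' F, hloc q' (F ∩ Lam D (4 * m) q), inter_assoc,
        inter_eq_right.mpr (hsub b hb Q hQ q' hq')]
    unfold NearBad
    constructor
    · rintro ⟨b, hb, hc, Q, hQ, hQc, B, hB, hB2, hB3⟩
      exact ⟨b, hb, hc, Q, hQ, hQc, B, hB, hB2, fun q' hq' =>
        (hiff b hc Q hQ q' (mem_powerset.mp hB hq')).mp (hB3 q' hq')⟩
    · rintro ⟨b, hb, hc, Q, hQ, hQc, B, hB, hB2, hB3⟩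
      exact ⟨b, hb, hc, Q, hQ, hQc, B, hB, hB2, fun q' hq' =>
        (hiff b hc Q hQ q' (mem_powerset.mp hB hq')).mpr (hB3 q' hq')⟩

end Pool.Agent.Y490.EV
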